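import Mathlib
import Pool.Agent.Q103.SD.Abc

/-!
# Degrees in `A ^ 3 - B ^ 2 = G` for products of powers of polynomials
-/

set_option autoImplicit false

namespace Pool.Agent.Q29.SZ

open Polynomial Finset Filter Pool.Agent.Q103.SD

/-- Nonconstant integer polynomials of total degree at most `K` with coefficients of absolute value
at most `H`. -/
structure Small (K : ℕ) (H : ℝ) {n : ℕ} (F : Fin n → ℤ[X]) : Prop where
  pos : ∀ i, 0 < (F i).natDegree
  deg : ∑ i, (F i).natDegree ≤ K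
  coeff : ∀ i j, |((F i).coeff j : ℝ)| ≤ H

/-- the reduction to rational coefficients -/
noncomputable abbrev φ : ℤ →+* ℚ := Int.castRingHom ℚ

theorem φ_inj : Function.Injective φ := Int.cast_injective

variable {K : ℕ} {H : ℝ} {n : ℕ} {F : Fin n → ℤ[X]}

theorem Small.ne (hF : Small K H F) (i : Fin n) : F i ≠ 0 := fun h => by
  have := hF.pos i
  rw [h, natDegree_zero] at this
  omega

theorem coprime_PP (hF : Small K H F) {t : ℕ} (hH : 1 ≤ H) (hHt : H + 3 ≤ t) {η θ : ℤ}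
    (hη : η ≠ 0) (hθ : θ ≠ 0) {e f : Fin n → ℕ}
    (h : ∀ i j, e i ≠ 0 → f j ≠ 0 → IsCoprime ((F i).eval (t : ℤ)) ((F j).eval (t : ℤ))) :
    IsCoprime ((PP F η e).map φ) ((PP F θ f).map φ) := by
  have hη' : ((η : ℤ) : ℚ) ≠ 0 := by exact_mod_cast hη
  have hθ' : ((θ : ℤ) : ℚ) ≠ 0 := by exact_mod_cast hθ
  unfold PP
  rw [Polynomial.map_mul, Polynomial.map_mul, map_C, map_C, Polynomial.map_prod,
    Polynomial.map_prod]
  have hu1 : IsUnit (C (φ η)) := isUnit_C.mpr (isUnit_iff_ne_zero.mpr hη')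
  have hu2 : IsUnit (C (φ θ)) := isUnit_C.mpr (isUnit_iff_ne_zero.mpr hθ')
  rw [isCoprime_mul_unit_left_left hu1, isCoprime_mul_unit_left_right hu2]
  apply IsCoprime.prod_left
  intro i _
  apply IsCoprime.prod_right
  intro j _
  rw [Polynomial.map_pow, Polynomial.map_pow]
  by_cases hi : e i = 0
  · rw [hi, pow_zero]; exact isCoprime_one_left
  by_cases hj : f j = 0
  · rw [hj, pow_zero]; exact isCoprime_one_right
  apply IsCoprime.pow
  exact Pool.Agent.Q103.FC.coprime_of_eval (hF.ne i) (by linarith) (hF.coeff i) hHt (h i j hi hj)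

theorem PP_map_ne (hF : Small K H F) {η : ℤ} (hη : η ≠ 0) (e : Fin n → ℕ) :
    (PP F η e).map φ ≠ 0 :=
  (Polynomial.map_ne_zero_iff φ_inj).mpr (PP_ne_zero hF.ne hη e)

theorem PP_map_deg (hF : Small K H F) {η : ℤ} (hη : η ≠ 0) (e : Fin n → ℕ) :
    ((PP F η e).map φ).natDegree = ∑ i, e i * (F i).natDegree := by
  unfold PP
  rw [natDegree_map_eq_of_injective φ_inj, natDegree_C_mul hη,
    natDegree_prod _ _ (fun i _ => pow_ne_zero _ (hF.ne i))]
  apply Finset.sum_congr rfl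
  intro i _
  rw [natDegree_pow]

/-- **The degrees in the identity.** -/
theorem degrees (hF : Small K H F) {η₁ η₂ η₃ : ℤ} (h1 : η₁ ≠ 0) (h2 : η₂ ≠ 0) (h3 : η₃ ≠ 0)
    {a b d : Fin n → ℕ}
    (hid : PP F η₁ (fun i => 3 * a i) - PP F η₂ (fun i => 2 * b i) = PP F η₃ d)
    (hco : IsCoprime ((PP F η₁ (fun i => 3 * a i)).map φ) ((PP F η₃ d).map φ))
    (hU : ∃ i, a i ≠ 0 ∨ b i ≠ 0 ∨ d i ≠ 0) :
    3 * ∑ i, a i * (F i).natDegree + 6 ≤ 6 * ∑ i with d i ≠ 0, (F i).natDegree ∧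
    2 * ∑ i, b i * (F i).natDegree + 6 ≤ 6 * ∑ i with d i ≠ 0, (F i).natDegree ∧
    ∑ i, d i * (F i).natDegree + 6 ≤ 6 * ∑ i with d i ≠ 0, (F i).natDegree := by
  obtain ⟨P, hP⟩ : ∃ P, P = (PP F η₁ (fun i => 3 * a i)).map φ := ⟨_, rfl⟩
  obtain ⟨Q, hQ⟩ : ∃ Q, Q = (PP F η₂ (fun i => 2 * b i)).map φ := ⟨_, rfl⟩
  obtain ⟨R, hR⟩ : ∃ R, R = (PP F η₃ d).map φ := ⟨_, rfl⟩
  have hP0 : P ≠ 0 := by rw [hP]; exact PP_map_ne hF h1 _
  have hQ0 : Q ≠ 0 := by rw [hQ]; exact PP_map_ne hF h2 _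
  have hR0 : R ≠ 0 := by rw [hR]; exact PP_map_ne hF h3 _
  have hsum : P + -R + -Q = 0 := by
    rw [hP, hQ, hR, ← hid, Polynomial.map_sub]
    ring
  have hcoPR : IsCoprime P (-R) := by rw [hP, hR]; exact hco.neg_right
  obtain ⟨A, hA⟩ : ∃ A, A = ∏ i, (F i).map φ ^ a i := ⟨_, rfl⟩
  obtain ⟨B, hB⟩ : ∃ B, B = ∏ i, (F i).map φ ^ b i := ⟨_, rfl⟩
  obtain ⟨G, hG⟩ : ∃ G, G = ∏ i with d i ≠ 0, (F i).map φ := ⟨_, rfl⟩
  have hPA : P ∣ A ^ 3 := by
    rw [hP, hA]
    unfold PP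
    rw [Polynomial.map_mul, map_C, Polynomial.map_prod]
    have hη' : ((η₁ : ℤ) : ℚ) ≠ 0 := by exact_mod_cast h1
    have hu1 : IsUnit (C (φ η₁)) := isUnit_C.mpr (isUnit_iff_ne_zero.mpr hη')
    refine (hu1.mul_left_dvd).mpr ?_
    rw [← Finset.prod_pow]
    apply Finset.prod_dvd_prod_of_dvd
    intro i _
    rw [Polynomial.map_pow, ← pow_mul, mul_comm]
  have hQB : Q ∣ B ^ 2 := by
    rw [hQ, hB]
    unfold PP
    rw [Polynomial.map_mul, map_C, Polynomial.map_prod]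
    have hη' : ((η₂ : ℤ) : ℚ) ≠ 0 := by exact_mod_cast h2
    have hu1 : IsUnit (C (φ η₂)) := isUnit_C.mpr (isUnit_iff_ne_zero.mpr hη')
    refine (hu1.mul_left_dvd).mpr ?_
    rw [← Finset.prod_pow]
    apply Finset.prod_dvd_prod_of_dvd
    intro i _
    rw [Polynomial.map_pow, ← pow_mul, mul_comm]
  have hRG : R ∣ G ^ (∑ i, d i) := by
    rw [hR, hG]
    unfold PP
    rw [Polynomial.map_mul, map_C, Polynomial.map_prod]
    have hη' : ((η₃ : ℤ) : ℚ) ≠ 0 := by exact_mod_cast h3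
    have hu1 : IsUnit (C (φ η₃)) := isUnit_C.mpr (isUnit_iff_ne_zero.mpr hη')
    refine (hu1.mul_left_dvd).mpr ?_
    rw [← Finset.prod_pow_eq_pow_sum]
    apply Finset.prod_dvd_prod_of_dvd
    intro i _
    rw [Polynomial.map_pow]
    by_cases hi : d i = 0
    · rw [hi, pow_zero, pow_zero]
    · exact pow_dvd_pow_of_dvd (Finset.dvd_prod_of_mem _ (by simp [hi])) _
  have hrad : (UniqueFactorizationMonoid.radical (P * -R * -Q)).natDegree ≤
      ∑ i, a i * (F i).natDegree + ∑ i, b i * (F i).natDegree +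
        ∑ i with d i ≠ 0, (F i).natDegree := by
    have hne : P * -R * -Q ≠ 0 := mul_ne_zero (mul_ne_zero hP0 (neg_ne_zero.mpr hR0))
      (neg_ne_zero.mpr hQ0)
    have hmapne : ∀ i, (F i).map φ ≠ 0 := fun i => (Polynomial.map_ne_zero_iff φ_inj).mpr (hF.ne i)
    have hA0 : A ≠ 0 := by
      rw [hA]; exact Finset.prod_ne_zero_iff.mpr fun i _ => pow_ne_zero _ (hmapne i)
    have hB0 : B ≠ 0 := by
      rw [hB]; exact Finset.prod_ne_zero_iff.mpr fun i _ => pow_ne_zero _ (hmapne i)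
    have hG0 : G ≠ 0 := by
      rw [hG]; exact Finset.prod_ne_zero_iff.mpr fun i _ => hmapne i
    have hdvd : P * -R * -Q ∣ (A * B * G) ^ (3 + 2 + ∑ i, d i) := by
      have e1 : P * -R * -Q = P * Q * R := by ring
      rw [e1, pow_add, pow_add]
      refine mul_dvd_mul (mul_dvd_mul ?_ ?_) ?_
      · exact hPA.trans (pow_dvd_pow_of_dvd ⟨B * G, by ring⟩ _)
      · exact hQB.trans (pow_dvd_pow_of_dvd ⟨A * G, by ring⟩ _)
      · exact hRG.trans (pow_dvd_pow_of_dvd ⟨A * B, by ring⟩ _)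
    have hr := (UniqueFactorizationMonoid.exists_dvd_pow_iff_radical_dvd hne).mp ⟨_, hdvd⟩
    refine (natDegree_le_of_dvd hr (mul_ne_zero (mul_ne_zero hA0 hB0) hG0)).trans ?_
    refine natDegree_mul_le.trans (add_le_add (natDegree_mul_le.trans (add_le_add ?_ ?_)) ?_)
    · rw [hA]
      refine (natDegree_prod_le _ _).trans (Finset.sum_le_sum fun i _ => ?_)
      exact natDegree_pow_le.trans (Nat.mul_le_mul_left _ natDegree_map_le)
    · rw [hB]
      refine (natDegree_prod_le _ _).trans (Finset.sum_le_sum fun i _ => ?_)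
      exact natDegree_pow_le.trans (Nat.mul_le_mul_left _ natDegree_map_le)
    · rw [hG]
      exact (natDegree_prod_le _ _).trans (Finset.sum_le_sum fun i _ => natDegree_map_le)
  have e1 := PP_map_deg hF h1 (fun i => 3 * a i)
  have e2 := PP_map_deg hF h2 (fun i => 2 * b i)
  have e3 := PP_map_deg hF h3 d
  rw [← hP] at e1
  rw [← hQ] at e2
  rw [← hR] at e3
  have s1 : ∑ i, 3 * a i * (F i).natDegree = 3 * ∑ i, a i * (F i).natDegree := by
    rw [Finset.mul_sum]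
    exact Finset.sum_congr rfl fun i _ => by ring
  have s2 : ∑ i, 2 * b i * (F i).natDegree = 2 * ∑ i, b i * (F i).natDegree := by
    rw [Finset.mul_sum]
    exact Finset.sum_congr rfl fun i _ => by ring
  rw [s1] at e1
  rw [s2] at e2
  rcases Polynomial.abc hP0 (neg_ne_zero.mpr hR0) (neg_ne_zero.mpr hQ0) hcoPR hsum with
    ⟨g1, g2, g3⟩ | ⟨g1, g2, g3⟩
  · rw [natDegree_neg] at g2 g3
    omega
  · exfalso
    rw [derivative_neg, neg_eq_zero] at g2 g3
    obtain ⟨i, hi⟩ := hU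
    have z1 := derivative_eq_zero.mp g1
    have z2 := derivative_eq_zero.mp g2
    have z3 := derivative_eq_zero.mp g3
    rw [e1] at z1
    rw [e3] at z2
    rw [e2] at z3
    have hone : ∀ e : Fin n → ℕ, ∑ i, e i * (F i).natDegree = 0 → e i = 0 := by
      intro e he
      have h4 := (Finset.sum_eq_zero_iff.mp he) i (Finset.mem_univ i)
      rcases Nat.mul_eq_zero.mp h4 with h5 | h5
      · exact h5
      · have := hF.pos i
        omega
    rcases hi with h4 | h4 | h4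
    · exact h4 (hone a (by omega))
    · exact h4 (hone b (by omega))
    · exact h4 (hone d z2)

end Pool.Agent.Q29.SZ
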