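import Mathlib
import Pool.Agent.Q29.SZ.Deg

/-!
# Sizes of the invariants
-/

set_option autoImplicit false

namespace Pool.Agent.Q29.SZ

open Polynomial Finset Filter Pool.Agent.Q103.SD

/-- the value `η ∏ F_i(t) ^ e_i` -/
def val {n : ℕ} (F : Fin n → ℤ[X]) (t : ℕ) (η : ℤ) (e : Fin n → ℕ) : ℤ :=
  η * ∏ i, (F i).eval (t : ℤ) ^ e i

theorem sizes (K : ℕ) (ε : ℝ) (hε : 0 < ε) : ∃ δ : ℝ, 0 < δ ∧ ∃ t₀ : ℕ, ∀ t : ℕ, t₀ ≤ t →
    ∀ (n : ℕ) (F : Fin n → ℤ[X]) (α β γ : ℤ) (a b d : Fin n → ℕ), Small K ((t : ℝ) ^ δ) F →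
      |(α : ℝ)| ≤ (t : ℝ) ^ δ → |(β : ℝ)| ≤ (t : ℝ) ^ δ → |(γ : ℝ)| ≤ (t : ℝ) ^ δ →
      3 * ∑ i, a i * (F i).natDegree + 6 ≤ 6 * ∑ i with d i ≠ 0, (F i).natDegree →
      2 * ∑ i, b i * (F i).natDegree + 6 ≤ 6 * ∑ i with d i ≠ 0, (F i).natDegree →
      ∑ i, d i * (F i).natDegree + 6 ≤ 6 * ∑ i with d i ≠ 0, (F i).natDegree →
      ∀ x : ℝ, x = |((val F t α a : ℤ) : ℝ)| ^ 3 ∨ x = |((val F t β b : ℤ) : ℝ)| ^ 2 ∨
          x = |((val F t γ d : ℤ) : ℝ)| →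
        x * (t : ℝ) ^ (6 - ε) ≤ |((∏ i with d i ≠ 0, (F i).eval (t : ℤ) : ℤ) : ℝ)| ^ 6 := by
  obtain ⟨δ, hδ⟩ : ∃ δ : ℝ, δ = min (1 / 2) (ε / (2 * (6 * K + 3))) := ⟨_, rfl⟩
  have hδ0 : 0 < δ := by rw [hδ]; exact lt_min (by norm_num) (by positivity)
  have hδ1 : δ ≤ 1 / 2 := by rw [hδ]; exact min_le_left _ _
  have hδ2 : δ * (6 * K + 3) ≤ ε / 2 := by
    have h1 : δ ≤ ε / (2 * (6 * K + 3)) := by rw [hδ]; exact min_le_right _ _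
    calc δ * (6 * K + 3) ≤ ε / (2 * (6 * K + 3)) * (6 * K + 3) :=
          mul_le_mul_of_nonneg_right h1 (by positivity)
      _ = ε / 2 := by field_simp
  have hw : Tendsto (fun t : ℕ => (t : ℝ) ^ (ε / 2)) atTop atTop :=
    (tendsto_rpow_atTop (by positivity)).comp tendsto_natCast_atTop_atTop
  obtain ⟨t₀, ht₀⟩ := eventually_atTop.mp
    ((hw.eventually_ge_atTop ((2 : ℝ) ^ (12 * K))).and (eventually_ge_atTop 64))
  refine ⟨δ, hδ0, t₀, ?_⟩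
  intro t ht n F α β γ a b d hF hα hβ hγ d1 d2 d3 x hx
  obtain ⟨h4, ht64⟩ := ht₀ t ht
  have htR : (64 : ℝ) ≤ t := by exact_mod_cast ht64
  have ht0 : (0 : ℝ) < t := by linarith
  obtain ⟨B, hB⟩ : ∃ B : ℝ, B = (t : ℝ) ^ δ := ⟨_, rfl⟩
  rw [← hB] at hF hα hβ hγ
  have hB1 : 1 ≤ B := by rw [hB]; exact Real.one_le_rpow (by linarith) hδ0.le
  obtain ⟨r, hr⟩ : ∃ r : ℝ, r = (t : ℝ) ^ (1 / 2 : ℝ) := ⟨_, rfl⟩
  have hrr : r * r = t := by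
    rw [hr, ← Real.rpow_add ht0]
    norm_num
  have hr8 : 8 ≤ r := by
    have hr0 : 0 ≤ r := by rw [hr]; positivity
    nlinarith
  have hBr : B ≤ r := by
    rw [hB, hr]
    exact Real.rpow_le_rpow_of_exponent_le (by linarith) hδ1
  have hBt : 4 * B ≤ t := by nlinarith
  obtain ⟨g, hg⟩ : ∃ g, g = ∑ i with d i ≠ 0, (F i).natDegree := ⟨_, rfl⟩
  rw [← hg] at d1 d2 d3
  obtain ⟨M, hM⟩ : ∃ M, M + 6 = 6 * g := ⟨6 * g - 6, by omega⟩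
  have hgK : g ≤ K := by
    rw [hg]
    exact (Finset.sum_le_univ_sum_of_nonneg fun _ => Nat.zero_le _).trans hF.deg
  have h2B : 1 ≤ 2 * B := by linarith
  have hbnd : ∀ (y : ℝ) (D k : ℕ), 0 ≤ y → y ≤ B * ((2 * B) ^ D * (t : ℝ) ^ D) → k ≤ 3 →
      k * D ≤ M → y ^ k ≤ B ^ 3 * ((2 * B) ^ M * (t : ℝ) ^ M) := by
    intro y D k hy0 hy hk hD
    calc y ^ k ≤ (B * ((2 * B) ^ D * (t : ℝ) ^ D)) ^ k := pow_le_pow_left₀ hy0 hy k
      _ = B ^ k * ((2 * B) ^ (k * D) * (t : ℝ) ^ (k * D)) := by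
          rw [mul_pow, mul_pow, ← pow_mul, ← pow_mul, mul_comm D k]
      _ ≤ B ^ 3 * ((2 * B) ^ M * (t : ℝ) ^ M) := by
          apply mul_le_mul (pow_le_pow_right₀ hB1 hk) _ (by positivity) (by positivity)
          exact mul_le_mul (pow_le_pow_right₀ h2B hD) (pow_le_pow_right₀ (by linarith) hD)
            (by positivity) (by positivity)
  have hxs : x ≤ B ^ 3 * ((2 * B) ^ M * (t : ℝ) ^ M) := by
    rcases hx with rfl | rfl | rfl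
    · exact hbnd _ _ 3 (abs_nonneg _)
        (size_PP (by omega) hB1 hBt hF.coeff hF.pos hα a le_rfl) le_rfl (by omega)
    · exact hbnd _ _ 2 (abs_nonneg _)
        (size_PP (by omega) hB1 hBt hF.coeff hF.pos hβ b le_rfl) (by norm_num) (by omega)
    · have := hbnd _ _ 1 (abs_nonneg _)
        (size_PP (by omega) hB1 hBt hF.coeff hF.pos hγ d le_rfl) (by norm_num) (by omega)
      rw [pow_one] at this
      exact this
  have hlow := prod_lower (t := t) (by omega) (by linarith) hBt hF.coeff hF.pos hF.deg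
    (Finset.univ.filter (fun i => d i ≠ 0))
  rw [← hg] at hlow
  obtain ⟨Q, hQ⟩ : ∃ Q, Q = |((∏ i with d i ≠ 0, (F i).eval (t : ℤ) : ℤ) : ℝ)| := ⟨_, rfl⟩
  rw [← hQ] at hlow ⊢
  have hQ0 : 0 ≤ Q := by rw [hQ]; exact abs_nonneg _
  have hBK : B ^ (6 * K + 3) ≤ (t : ℝ) ^ (ε / 2) := by
    rw [hB, ← Real.rpow_mul_natCast ht0.le]
    apply Real.rpow_le_rpow_of_exponent_le (by linarith)
    push_cast
    exact hδ2
  have h5 : B ^ 3 * (2 * B) ^ M ≤ 2 ^ (6 * K) * (t : ℝ) ^ (ε / 2) := by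
    calc B ^ 3 * (2 * B) ^ M = 2 ^ M * B ^ (M + 3) := by rw [mul_pow]; ring
      _ ≤ 2 ^ (6 * K) * B ^ (6 * K + 3) := by
          apply mul_le_mul (pow_le_pow_right₀ (by norm_num) (by omega))
            (pow_le_pow_right₀ hB1 (by omega)) (by positivity) (by positivity)
      _ ≤ _ := mul_le_mul_of_nonneg_left hBK (by positivity)
  have h6 : (t : ℝ) ^ (6 - ε) * ((t : ℝ) ^ (ε / 2) * (t : ℝ) ^ (ε / 2)) = (t : ℝ) ^ 6 := by
    rw [← Real.rpow_add ht0, ← Real.rpow_add ht0, ← Real.rpow_natCast]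
    congr 1
    push_cast
    ring
  obtain ⟨τ, hτ⟩ : ∃ τ : ℝ, τ = (t : ℝ) ^ (ε / 2) := ⟨_, rfl⟩
  obtain ⟨τ', hτ'⟩ : ∃ τ' : ℝ, τ' = (t : ℝ) ^ (6 - ε) := ⟨_, rfl⟩
  rw [← hτ, ← hτ'] at h6
  rw [← hτ] at h4 h5
  rw [← hτ']
  have hτ0 : 0 < τ := by rw [hτ]; positivity
  have hτ'0 : 0 < τ' := by rw [hτ']; positivity
  have h8 : ((t : ℝ) ^ g) ^ 6 ≤ (2 ^ K * Q) ^ 6 := pow_le_pow_left₀ (by positivity) hlow 6
  have h7 : (x * τ') * τ ≤ Q ^ 6 * τ := by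
    calc (x * τ') * τ ≤ ((B ^ 3 * ((2 * B) ^ M * (t : ℝ) ^ M)) * τ') * τ := by
          apply mul_le_mul_of_nonneg_right _ hτ0.le
          exact mul_le_mul_of_nonneg_right hxs hτ'0.le
      _ = (B ^ 3 * (2 * B) ^ M) * ((t : ℝ) ^ M * τ' * τ) := by ring
      _ ≤ (2 ^ (6 * K) * τ) * ((t : ℝ) ^ M * τ' * τ) :=
          mul_le_mul_of_nonneg_right h5 (by positivity)
      _ = 2 ^ (6 * K) * (t : ℝ) ^ (M + 6) := by
          rw [pow_add]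
          linear_combination (2 ^ (6 * K) * (t : ℝ) ^ M) * h6
      _ = 2 ^ (6 * K) * ((t : ℝ) ^ g) ^ 6 := by rw [hM, ← pow_mul, mul_comm 6 g]
      _ ≤ 2 ^ (6 * K) * (2 ^ K * Q) ^ 6 := mul_le_mul_of_nonneg_left h8 (by positivity)
      _ = 2 ^ (12 * K) * Q ^ 6 := by
          rw [mul_pow, ← pow_mul, ← mul_assoc, ← pow_add]
          congr 2
          ring
      _ ≤ τ * Q ^ 6 := mul_le_mul_of_nonneg_right h4 (by positivity)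
      _ = Q ^ 6 * τ := mul_comm _ _
  exact le_of_mul_le_mul_right h7 hτ0

end Pool.Agent.Q29.SZ
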