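import Mathlib
import Pool.Agent.Q29.SZ.Size

/-!
# The relation between the invariants comes from an identity
-/

set_option autoImplicit false

namespace Pool.Agent.Q29.SZ

open Polynomial Finset Filter Pool.Agent.Q103.SD

theorem val_eq {n : ℕ} (F : Fin n → ℤ[X]) (t : ℕ) (η : ℤ) (e : Fin n → ℕ) :
    (PP F η e).eval (t : ℤ) = val F t η e := eval_PP F η e _

theorem val_cube {n : ℕ} (F : Fin n → ℤ[X]) (t : ℕ) (η : ℤ) (e : Fin n → ℕ) :
    val F t (η ^ 3) (fun i => 3 * e i) = val F t η e ^ 3 := by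
  unfold val
  rw [mul_pow, ← Finset.prod_pow]
  congr 1
  exact Finset.prod_congr rfl fun i _ => by rw [← pow_mul, mul_comm]

theorem val_sq {n : ℕ} (F : Fin n → ℤ[X]) (t : ℕ) (η : ℤ) (e : Fin n → ℕ) :
    val F t (η ^ 2) (fun i => 2 * e i) = val F t η e ^ 2 := by
  unfold val
  rw [mul_pow, ← Finset.prod_pow]
  congr 1
  exact Finset.prod_congr rfl fun i _ => by rw [← pow_mul, mul_comm]

theorem val_smul {n : ℕ} (F : Fin n → ℤ[X]) (t : ℕ) (c η : ℤ) (e : Fin n → ℕ) :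
    val F t (c * η) e = c * val F t η e := by
  unfold val
  ring

theorem nosub {x y z : ℤ} (hx : x ≠ 0) (hy : y ≠ 0) (hz : z ≠ 0) (h : x + y + z = 0) :
    ∀ T : Finset (Fin 3), T.Nonempty → T ≠ Finset.univ → ∑ k ∈ T, ![x, y, z] k ≠ 0 := by
  intro T hT hTu hsum
  have hcases : T = {0} ∨ T = {1} ∨ T = {2} ∨ T = {0, 1} ∨ T = {0, 2} ∨ T = {1, 2} := by
    revert hT hTu
    clear hsum
    revert T
    decide
  rcases hcases with rfl | rfl | rfl | rfl | rfl | rfl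
  · simp at hsum; exact hx hsum
  · simp at hsum; exact hy hsum
  · simp at hsum; exact hz hsum
  · rw [Finset.sum_pair (by decide)] at hsum
    simp at hsum
    apply hz
    linarith
  · rw [Finset.sum_pair (by decide)] at hsum
    simp at hsum
    apply hy
    linarith
  · rw [Finset.sum_pair (by decide)] at hsum
    simp at hsum
    apply hx
    linarith

/-- the numbers have small digits -/
theorem val_ne {K : ℕ} {H : ℝ} {n : ℕ} {F : Fin n → ℤ[X]} (hF : Small K H F) {t : ℕ} (ht : 2 ≤ t)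
    (hH : 0 ≤ H) (hHt : 4 * H ≤ t) {η : ℤ} (hη : η ≠ 0) (e : Fin n → ℕ) : val F t η e ≠ 0 := by
  unfold val
  refine mul_ne_zero hη (Finset.prod_ne_zero_iff.mpr fun i _ => pow_ne_zero _ ?_)
  intro h0
  have h3 := (value_size ht hH hHt (hF.coeff i) (hF.ne i)).1
  rw [h0, Int.cast_zero, abs_zero] at h3
  have ht' : (2 : ℝ) ≤ t := by exact_mod_cast ht
  have h4 : (0 : ℝ) < (t : ℝ) ^ (F i).natDegree := by positivity
  linarith

/-- **Bounded exponents.** -/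
theorem ident_bdd (K : ℕ) : ∃ δ : ℝ, 0 < δ ∧ ∃ t₀ : ℕ, ∀ t : ℕ, t₀ ≤ t →
    ∀ (n : ℕ) (F : Fin n → ℤ[X]) (α β γ : ℤ) (a b d : Fin n → ℕ), Small K ((t : ℝ) ^ δ) F →
      (∀ i, |(F i).coeff 0| ≤ 1) → α ≠ 0 → β ≠ 0 → γ ≠ 0 →
      |(α : ℝ)| ≤ (t : ℝ) ^ δ → |(β : ℝ)| ≤ (t : ℝ) ^ δ → |(γ : ℝ)| ≤ (t : ℝ) ^ δ →
      ((∑ i, a i : ℕ) : ℝ) ≤ (t : ℝ) ^ δ → ((∑ i, b i : ℕ) : ℝ) ≤ (t : ℝ) ^ δ →
      ((∑ i, d i : ℕ) : ℝ) ≤ (t : ℝ) ^ δ →
      (¬ (t : ℤ) ∣ val F t α a ^ 3 ∨ ¬ (t : ℤ) ∣ 1728 * val F t γ d) →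
      val F t α a ^ 3 - val F t β b ^ 2 = 1728 * val F t γ d →
      PP F (α ^ 3) (fun i => 3 * a i) - PP F (β ^ 2) (fun i => 2 * b i) = PP F (1728 * γ) d := by
  obtain ⟨J, hJ⟩ : ∃ J, J = JJ K 3 := ⟨_, rfl⟩
  obtain ⟨δ, hδ⟩ : ∃ δ : ℝ, δ = 1 / (2 * (3 + 4 * J)) := ⟨_, rfl⟩
  have hδ0 : 0 < δ := by rw [hδ]; positivity
  have hδ1 : δ ≤ 1 / 2 := by
    rw [hδ, div_le_div_iff₀ (by positivity) (by norm_num)]
    have : (0 : ℝ) ≤ J := by positivity
    linarith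
  have hw : Tendsto (fun t : ℕ => (t : ℝ) ^ (1 / 2 : ℝ)) atTop atTop :=
    (tendsto_rpow_atTop (by norm_num)).comp tendsto_natCast_atTop_atTop
  obtain ⟨t₀, ht₀⟩ := eventually_atTop.mp
    ((hw.eventually_gt_atTop ((3 * 1728 : ℝ) * 6912 ^ J)).and (eventually_ge_atTop 64))
  refine ⟨δ, hδ0, t₀, ?_⟩
  intro t ht n F α β γ a b d hF hunit hα0 hβ0 hγ0 hα hβ hγ ha hb hd hdvd heq
  obtain ⟨h4, ht64⟩ := ht₀ t ht
  have htR : (64 : ℝ) ≤ t := by exact_mod_cast ht64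
  have ht0 : (0 : ℝ) < t := by linarith
  obtain ⟨B, hB⟩ : ∃ B : ℝ, B = (t : ℝ) ^ δ := ⟨_, rfl⟩
  rw [← hB] at hF hα hβ hγ ha hb hd
  have hB1 : 1 ≤ B := by rw [hB]; exact Real.one_le_rpow (by linarith) hδ0.le
  obtain ⟨r, hr⟩ : ∃ r : ℝ, r = (t : ℝ) ^ (1 / 2 : ℝ) := ⟨_, rfl⟩
  rw [← hr] at h4
  have hrr : r * r = t := by
    rw [hr, ← Real.rpow_add ht0]
    norm_num
  have hr0 : 0 ≤ r := by rw [hr]; positivity
  have hr8 : 8 ≤ r := by nlinarith
  have hBr : B ≤ r := by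
    rw [hB, hr]
    exact Real.rpow_le_rpow_of_exponent_le (by linarith) hδ1
  have hBt : 4 * B ≤ t := by nlinarith
  have hv : ∀ {η : ℤ}, η ≠ 0 → ∀ e, val F t η e ≠ 0 := fun hη e =>
    val_ne hF (by omega) (by linarith) hBt hη e
  have hB3 : B ≤ 1728 * B ^ 3 := by nlinarith [pow_le_pow_right₀ hB1 (show 1 ≤ 3 by norm_num)]
  obtain ⟨N, hN⟩ : ∃ N, N = ⌊3 * B⌋₊ + 1 := ⟨_, rfl⟩
  have hNB : (N : ℝ) ≤ 4 * B := by
    rw [hN]
    push_cast
    have := Nat.floor_le (show 0 ≤ 3 * B by linarith)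
    linarith
  have hexp : ∀ (e : Fin n → ℕ) (k : ℕ), k ≤ 3 → ((∑ i, e i : ℕ) : ℝ) ≤ B →
      ∑ i, k * e i ≤ N := by
    intro e k hk he
    rw [← Finset.mul_sum, hN]
    have h1 : k * ∑ i, e i ≤ 3 * ∑ i, e i := Nat.mul_le_mul_right _ hk
    have h2 : 3 * ∑ i, e i ≤ ⌊3 * B⌋₊ := by
      apply Nat.le_floor
      push_cast
      push_cast at he
      linarith
    omega
  have hid := identity (A := ℤ) (κ := Fin n) (ι := Fin 3) sizeZ (t := (t : ℤ))
    (by exact_mod_cast (show t ≠ 0 by omega)) (T := (t : ℝ)) (fun x h1 h2 => smallZ x h1 h2) hF.ne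
    (D := K) hF.deg (H := 1728 * B ^ 3) (by linarith)
    (fun i => by
      have h1 := hunit i
      show |((F i).coeff 0 : ℝ)| ≤ 1
      exact_mod_cast h1)
    (fun i j => (hF.coeff i j).trans hB3) (α := ![α ^ 3, -β ^ 2, -(1728 * γ)])
    (by
      intro k
      fin_cases k
      · exact pow_ne_zero _ hα0
      · exact neg_ne_zero.mpr (pow_ne_zero _ hβ0)
      · exact neg_ne_zero.mpr (mul_ne_zero (by norm_num) hγ0))
    (by
      intro k
      have hBB : (1 : ℝ) ≤ B ^ 3 := one_le_pow₀ hB1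
      fin_cases k
      · show |((α ^ 3 : ℤ) : ℝ)| ≤ 1728 * B ^ 3
        push_cast
        rw [abs_pow]
        have := pow_le_pow_left₀ (abs_nonneg _) hα 3
        linarith
      · show |((-β ^ 2 : ℤ) : ℝ)| ≤ 1728 * B ^ 3
        push_cast
        rw [abs_neg, abs_pow]
        have h1 := pow_le_pow_left₀ (abs_nonneg _) hβ 2
        have h2 := pow_le_pow_right₀ hB1 (show 2 ≤ 3 by norm_num)
        linarith
      · show |((-(1728 * γ) : ℤ) : ℝ)| ≤ 1728 * B ^ 3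
        push_cast
        rw [abs_neg, abs_mul]
        have h2 := pow_le_pow_right₀ hB1 (show 1 ≤ 3 by norm_num)
        rw [pow_one] at h2
        have h3 : |(1728 : ℝ)| = 1728 := by norm_num
        rw [h3]
        linarith)
    ![fun i => 3 * a i, fun i => 2 * b i, d] (N := N) (by omega)
    (by
      intro k
      fin_cases k
      · exact hexp a 3 le_rfl ha
      · exact hexp b 2 (by norm_num) hb
      · have := hexp d 1 (by norm_num) hd
        simpa using this)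
    (by
      rw [Fintype.card_fin, ← hJ]
      have h1 : ((3 : ℕ) : ℝ) * (1728 * B ^ 3) * (N * (1728 * B ^ 3)) ^ J ≤
          3 * (1728 * B ^ 3) * (6912 * B ^ 4) ^ J := by
        push_cast
        apply mul_le_mul_of_nonneg_left _ (by positivity)
        apply pow_le_pow_left₀ (by positivity)
        calc (N : ℝ) * (1728 * B ^ 3) ≤ (4 * B) * (1728 * B ^ 3) :=
              mul_le_mul_of_nonneg_right hNB (by positivity)
          _ = 6912 * B ^ 4 := by ring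
      have h2 : B ^ (3 + 4 * J) = r := by
        rw [hB, hr, ← Real.rpow_mul_natCast ht0.le]
        congr 1
        rw [hδ]
        push_cast
        field_simp
      have h3 : 3 * (1728 * B ^ 3) * (6912 * B ^ 4) ^ J = (3 * 1728 * 6912 ^ J) * r := by
        rw [mul_pow, ← h2, pow_add, pow_mul]
        ring
      rw [h3] at h1
      refine h1.trans_lt ?_
      rw [← hrr]
      exact mul_lt_mul_of_pos_right h4 (by linarith))
    (by
      rw [Fin.sum_univ_three]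
      show (PP F (α ^ 3) (fun i => 3 * a i)).eval (t : ℤ) +
        (PP F (-β ^ 2) (fun i => 2 * b i)).eval (t : ℤ) + (PP F (-(1728 * γ)) d).eval (t : ℤ) = 0
      rw [val_eq, val_eq, val_eq, val_cube, neg_eq_neg_one_mul (β ^ 2),
        neg_eq_neg_one_mul (1728 * γ), val_smul, val_smul, val_sq, val_smul]
      linarith)
  have hnosub := nosub (x := val F t α a ^ 3) (y := -val F t β b ^ 2)
    (z := -(1728 * val F t γ d)) (pow_ne_zero _ (hv hα0 a))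
    (neg_ne_zero.mpr (pow_ne_zero _ (hv hβ0 b)))
    (neg_ne_zero.mpr (mul_ne_zero (by norm_num) (hv hγ0 d))) (by linarith)
  have hfun : ∀ k : Fin 3, (PP F (![α ^ 3, -β ^ 2, -(1728 * γ)] k)
      (![fun i => 3 * a i, fun i => 2 * b i, d] k)).eval (t : ℤ) =
      ![val F t α a ^ 3, -val F t β b ^ 2, -(1728 * val F t γ d)] k := by
    intro k
    fin_cases k
    · show (PP F (α ^ 3) (fun i => 3 * a i)).eval (t : ℤ) = val F t α a ^ 3
      rw [val_eq, val_cube]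
    · show (PP F (-β ^ 2) (fun i => 2 * b i)).eval (t : ℤ) = -val F t β b ^ 2
      rw [val_eq, neg_eq_neg_one_mul (β ^ 2), val_smul, val_sq]
      ring
    · show (PP F (-(1728 * γ)) d).eval (t : ℤ) = -(1728 * val F t γ d)
      rw [val_eq, neg_eq_neg_one_mul (1728 * γ), val_smul, val_smul]
      ring
  have hid' : ∑ k : Fin 3, PP F (![α ^ 3, -β ^ 2, -(1728 * γ)] k)
      (![fun i => 3 * a i, fun i => 2 * b i, d] k) = 0 := by
    rcases hdvd with h | h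
    · refine hid 0 ?_ ?_
      · rw [hfun 0]
        exact h
      · intro S h1 h2
        simp only [hfun]
        exact hnosub S h1 h2
    · refine hid 2 ?_ ?_
      · rw [hfun 2]
        show ¬ (t : ℤ) ∣ -(1728 * val F t γ d)
        rw [dvd_neg]
        exact h
      · intro S h1 h2
        simp only [hfun]
        exact hnosub S h1 h2
  rw [Fin.sum_univ_three] at hid'
  have hid2 : PP F (α ^ 3) (fun i => 3 * a i) + PP F (-β ^ 2) (fun i => 2 * b i) +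
      PP F (-(1728 * γ)) d = 0 := hid'
  unfold PP at hid2 ⊢
  rw [C_neg, C_neg] at hid2
  linear_combination hid2

/-- One of the three numbers is composed of bases with last digit `0`, the other two of bases with
last digit `1` or `-1`. -/
def Separated {n : ℕ} (F : Fin n → ℤ[X]) (a b d : Fin n → ℕ) : Prop :=
  ((∀ i, d i ≠ 0 → (F i).coeff 0 = 0) ∧ (∀ i, a i ≠ 0 → (F i).coeff 0 ≠ 0) ∧
      ∀ i, b i ≠ 0 → (F i).coeff 0 ≠ 0) ∨
    ((∀ i, a i ≠ 0 → (F i).coeff 0 = 0) ∧ (∀ i, d i ≠ 0 → (F i).coeff 0 ≠ 0) ∧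
      ∀ i, b i ≠ 0 → (F i).coeff 0 ≠ 0) ∨
    ((∀ i, b i ≠ 0 → (F i).coeff 0 = 0) ∧ (∀ i, d i ≠ 0 → (F i).coeff 0 ≠ 0) ∧
      ∀ i, a i ≠ 0 → (F i).coeff 0 ≠ 0)

/-- **Arbitrary exponents.** -/
theorem ident_sep (K : ℕ) : ∃ δ : ℝ, 0 < δ ∧ ∃ t₀ : ℕ, ∀ t : ℕ, t₀ ≤ t →
    ∀ (n : ℕ) (F : Fin n → ℤ[X]) (α β γ : ℤ) (a b d : Fin n → ℕ), Small K ((t : ℝ) ^ δ) F →
      (∀ i, |(F i).coeff 0| ≤ 1) → α ≠ 0 → β ≠ 0 → γ ≠ 0 →
      |(α : ℝ)| ≤ (t : ℝ) ^ δ → |(β : ℝ)| ≤ (t : ℝ) ^ δ → |(γ : ℝ)| ≤ (t : ℝ) ^ δ →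
      Separated F a b d →
      val F t α a ^ 3 - val F t β b ^ 2 = 1728 * val F t γ d →
      PP F (α ^ 3) (fun i => 3 * a i) - PP F (β ^ 2) (fun i => 2 * b i) = PP F (1728 * γ) d := by
  obtain ⟨δ₁, hδ₁, hδ₁', t₁, ht₁, h1⟩ := three K
  have hw : Tendsto (fun t : ℕ => (t : ℝ) ^ (δ₁ / 2)) atTop atTop :=
    (tendsto_rpow_atTop (by positivity)).comp tendsto_natCast_atTop_atTop
  obtain ⟨t₂, ht₂⟩ := eventually_atTop.mp (hw.eventually_ge_atTop (1728 : ℝ))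
  refine ⟨δ₁ / 4, by positivity, max t₁ t₂, ?_⟩
  intro t ht n F α β γ a b d hF hunit hα0 hβ0 hγ0 hα hβ hγ hsep heq
  have htt₁ : t₁ ≤ t := (le_max_left _ _).trans ht
  have h1728 := ht₂ t ((le_max_right _ _).trans ht)
  have ht64 : (64 : ℝ) ≤ t := by exact_mod_cast ht₁.trans htt₁
  have ht0 : (0 : ℝ) < t := by linarith
  obtain ⟨B, hB⟩ : ∃ B : ℝ, B = (t : ℝ) ^ (δ₁ / 4) := ⟨_, rfl⟩
  rw [← hB] at hF hα hβ hγ
  have hB1 : 1 ≤ B := by rw [hB]; exact Real.one_le_rpow (by linarith) (by positivity)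
  have hB4 : B ^ 4 = (t : ℝ) ^ δ₁ := by
    rw [hB, ← Real.rpow_mul_natCast ht0.le]
    congr 1
    push_cast
    ring
  have hB2 : B ^ 2 = (t : ℝ) ^ (δ₁ / 2) := by
    rw [hB, ← Real.rpow_mul_natCast ht0.le]
    congr 1
    push_cast
    ring
  rw [← hB2] at h1728
  have hle1 : B ≤ (t : ℝ) ^ δ₁ := by rw [← hB4]; exact le_self_pow₀ hB1 (by norm_num)
  have hα3 : |((α ^ 3 : ℤ) : ℝ)| ≤ (t : ℝ) ^ δ₁ := by
    rw [← hB4]
    push_cast
    rw [abs_pow]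
    exact (pow_le_pow_left₀ (abs_nonneg _) hα 3).trans (pow_le_pow_right₀ hB1 (by norm_num))
  have hβ2 : |((-β ^ 2 : ℤ) : ℝ)| ≤ (t : ℝ) ^ δ₁ := by
    rw [← hB4]
    push_cast
    rw [abs_neg, abs_pow]
    exact (pow_le_pow_left₀ (abs_nonneg _) hβ 2).trans (pow_le_pow_right₀ hB1 (by norm_num))
  have hβ2' : |((β ^ 2 : ℤ) : ℝ)| ≤ (t : ℝ) ^ δ₁ := by
    have : ((-β ^ 2 : ℤ) : ℝ) = -((β ^ 2 : ℤ) : ℝ) := by push_cast; ring
    rwa [this, abs_neg] at hβ2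
  have hγ1 : |((1728 * γ : ℤ) : ℝ)| ≤ (t : ℝ) ^ δ₁ := by
    rw [← hB4]
    push_cast
    rw [abs_mul]
    have h3 : |(1728 : ℝ)| = 1728 := by norm_num
    rw [h3]
    calc 1728 * |(γ : ℝ)| ≤ B ^ 2 * B := mul_le_mul h1728 hγ (abs_nonneg _) (by positivity)
      _ = B ^ 3 := by ring
      _ ≤ B ^ 4 := pow_le_pow_right₀ hB1 (by norm_num)
  have hc1 := val_cube F t α a
  have hc2 := val_sq F t β b
  have hc3 := val_smul F t 1728 γ d
  have hc4 := val_smul F t (-1) (β ^ 2) (fun i => 2 * b i)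
  rw [← neg_eq_neg_one_mul, hc2] at hc4
  rcases hsep with ⟨s1, s2, s3⟩ | ⟨s1, s2, s3⟩ | ⟨s1, s2, s3⟩
  · have hD : Data t K ((t : ℝ) ^ δ₁) F (1728 * γ) (β ^ 2) (α ^ 3) d (fun i => 2 * b i)
        (fun i => 3 * a i) :=
      ⟨hF.pos, hF.deg, fun i j => (hF.coeff i j).trans hle1, hunit,
        mul_ne_zero (by norm_num) hγ0, pow_ne_zero _ hβ0, pow_ne_zero _ hα0, hγ1, hβ2', hα3,
        s1, fun i hi => s3 i (by omega), fun i hi => s2 i (by omega)⟩
    have h2 := h1 t htt₁ n F _ _ _ _ _ _ hD (by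
      show val F t (1728 * γ) d + val F t (β ^ 2) (fun i => 2 * b i) =
        val F t (α ^ 3) (fun i => 3 * a i)
      rw [hc1, hc2, hc3]
      linarith)
    unfold PP
    rw [← h2]
    ring
  · have hD : Data t K ((t : ℝ) ^ δ₁) F (α ^ 3) (-β ^ 2) (1728 * γ) (fun i => 3 * a i)
        (fun i => 2 * b i) d :=
      ⟨hF.pos, hF.deg, fun i j => (hF.coeff i j).trans hle1, hunit,
        pow_ne_zero _ hα0, neg_ne_zero.mpr (pow_ne_zero _ hβ0), mul_ne_zero (by norm_num) hγ0,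
        hα3, hβ2, hγ1, fun i hi => s1 i (by omega), fun i hi => s3 i (by omega), s2⟩
    have h2 := h1 t htt₁ n F _ _ _ _ _ _ hD (by
      show val F t (α ^ 3) (fun i => 3 * a i) + val F t (-β ^ 2) (fun i => 2 * b i) =
        val F t (1728 * γ) d
      rw [hc1, hc4, hc3]
      linarith)
    unfold PP
    rw [← h2, C_neg]
    ring
  · have hD : Data t K ((t : ℝ) ^ δ₁) F (-β ^ 2) (α ^ 3) (1728 * γ) (fun i => 2 * b i)
        (fun i => 3 * a i) d :=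
      ⟨hF.pos, hF.deg, fun i j => (hF.coeff i j).trans hle1, hunit,
        neg_ne_zero.mpr (pow_ne_zero _ hβ0), pow_ne_zero _ hα0, mul_ne_zero (by norm_num) hγ0,
        hβ2, hα3, hγ1, fun i hi => s1 i (by omega), fun i hi => s3 i (by omega), s2⟩
    have h2 := h1 t htt₁ n F _ _ _ _ _ _ hD (by
      show val F t (-β ^ 2) (fun i => 2 * b i) + val F t (α ^ 3) (fun i => 3 * a i) =
        val F t (1728 * γ) d
      rw [hc1, hc4, hc3]
      linarith)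
    unfold PP
    rw [← h2, C_neg]
    ring

end Pool.Agent.Q29.SZ
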